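import Mathlib
import Pool.Agent.LeoK.UpStmts

/-!
# KET: the compact set of the main part and its volume
-/

set_option autoImplicit false

open NumberField IsDedekindDomain Module MeasureTheory Filter Topology

namespace Pool.Agent.LeoK.H25

open Pool.Agent.LeoK

lemma cont_qP {σ : Type} (s : σ) : Continuous fun w : σ → Fin 4 → ℝ => qP (w s) := by
  unfold qP fP
  fun_prop

lemma cont_qM {σ : Type} (s : σ) : Continuous fun w : σ → Fin 4 → ℝ => qM (w s) := by
  unfold qM fM fP fR fQ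
  fun_prop

/-- bounds at one place -/
lemma bd_one (η c₁ Cx Cm Cb : ℝ) (hη : 0 < η) (hc₁ : 0 < c₁) (hCx : 0 ≤ Cx)
    (hCb : 0 ≤ Cb) (hid : ∀ a b c d : ℝ, fX a b c d ^ 2 + a ^ 2 * fM a b c d = 4 * fP a b c ^ 3) :
    ∃ C : ℝ, 0 ≤ C ∧ ∀ w : Fin 4 → ℝ, η ≤ |w 0| → c₁ ≤ qM w → 0 ≤ qP w → |w 1 / w 0| ≤ Cb →
      qP w / Real.sqrt (qM w) ≤ Cx → qM w ≤ Cm → ∀ i, |w i| ≤ C := by
  set CP : ℝ := Cx * Real.sqrt Cm with hCP
  have hCP0 : 0 ≤ CP := by positivity
  set CA : ℝ := 1 + 4 * CP ^ 3 / c₁ with hCA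
  have hCA0 : 0 ≤ CA := by positivity
  set CB : ℝ := Cb * CA with hCB
  have hCB0 : 0 ≤ CB := by positivity
  set CC : ℝ := (CB ^ 2 + CP) / η with hCC
  have hCC0 : 0 ≤ CC := by positivity
  set CX : ℝ := 1 + 4 * CP ^ 3 with hCX
  have hCX0 : 0 ≤ CX := by positivity
  set CD : ℝ := (CX + 2 * CB ^ 3 + 3 * CA * CB * CC) / η ^ 2 with hCD
  have hCD0 : 0 ≤ CD := by positivity
  refine ⟨CA + CB + CC + CD, by positivity, ?_⟩
  intro w ha hm hP hb hx hmC
  have hm0 : 0 < qM w := lt_of_lt_of_le hc₁ hm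
  have ha0 : 0 < |w 0| := lt_of_lt_of_le hη ha
  have hw0 : w 0 ≠ 0 := abs_pos.1 ha0
  have hP1 : qP w ≤ CP := by
    have hs : 0 < Real.sqrt (qM w) := Real.sqrt_pos.2 hm0
    rw [div_le_iff₀ hs] at hx
    exact hx.trans (mul_le_mul_of_nonneg_left (Real.sqrt_le_sqrt hmC) hCx)
  have hid' := hid (w 0) (w 1) (w 2) (w 3)
  have e1 : fM (w 0) (w 1) (w 2) (w 3) = qM w := rfl
  have e2 : fP (w 0) (w 1) (w 2) = qP w := rfl
  rw [e1, e2] at hid'
  have hP3 : qP w ^ 3 ≤ CP ^ 3 := pow_le_pow_left₀ hP hP1 3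
  have hA : |w 0| ≤ CA := by
    have h1 : w 0 ^ 2 * c₁ ≤ 4 * CP ^ 3 := by
      have h2 : w 0 ^ 2 * c₁ ≤ w 0 ^ 2 * qM w := mul_le_mul_of_nonneg_left hm (sq_nonneg _)
      nlinarith [sq_nonneg (fX (w 0) (w 1) (w 2) (w 3))]
    have h2 : w 0 ^ 2 ≤ 4 * CP ^ 3 / c₁ := by
      rw [le_div_iff₀ hc₁]
      exact h1
    have h3 : |w 0| ≤ 1 + w 0 ^ 2 := by
      have := sq_abs (w 0)
      nlinarith [sq_nonneg (|w 0| - 1)]
    linarith
  have hB : |w 1| ≤ CB := by
    have h1 : w 1 = w 1 / w 0 * w 0 := by field_simp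
    rw [h1, abs_mul]
    exact mul_le_mul hb hA (abs_nonneg _) hCb
  have hC : |w 2| ≤ CC := by
    have h1 : w 0 * w 2 = w 1 ^ 2 - qP w := by
      rw [← e2]
      unfold fP
      ring
    have h2 : |w 0| * |w 2| ≤ CB ^ 2 + CP := by
      rw [← abs_mul, h1]
      have h3 : |w 1 ^ 2 - qP w| ≤ |w 1 ^ 2| + |qP w| := abs_sub _ _
      have h4 : |w 1 ^ 2| ≤ CB ^ 2 := by
        rw [abs_pow]
        exact pow_le_pow_left₀ (abs_nonneg _) hB 2
      have h5 : |qP w| ≤ CP := by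
        rw [abs_of_nonneg hP]
        exact hP1
      linarith
    rw [hCC, le_div_iff₀ hη]
    have h6 : |w 2| * η ≤ |w 2| * |w 0| := mul_le_mul_of_nonneg_left ha (abs_nonneg _)
    linarith
  have hX : |fX (w 0) (w 1) (w 2) (w 3)| ≤ CX := by
    have h1 : fX (w 0) (w 1) (w 2) (w 3) ^ 2 ≤ 4 * CP ^ 3 := by
      have : 0 ≤ w 0 ^ 2 * qM w := by positivity
      linarith
    have h3 : |fX (w 0) (w 1) (w 2) (w 3)| ≤ 1 + fX (w 0) (w 1) (w 2) (w 3) ^ 2 := by
      have := sq_abs (fX (w 0) (w 1) (w 2) (w 3))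
      nlinarith [sq_nonneg (|fX (w 0) (w 1) (w 2) (w 3)| - 1)]
    linarith
  have hD : |w 3| ≤ CD := by
    have h1 : w 0 ^ 2 * w 3 = fX (w 0) (w 1) (w 2) (w 3) - 2 * w 1 ^ 3 + 3 * w 0 * w 1 * w 2 := by
      unfold fX
      ring
    have h2 : |w 0| ^ 2 * |w 3| ≤ CX + 2 * CB ^ 3 + 3 * CA * CB * CC := by
      rw [← abs_pow, ← abs_mul, h1]
      have h3 : |fX (w 0) (w 1) (w 2) (w 3) - 2 * w 1 ^ 3 + 3 * w 0 * w 1 * w 2| ≤
          |fX (w 0) (w 1) (w 2) (w 3)| + |2 * w 1 ^ 3| + |3 * w 0 * w 1 * w 2| :=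
        (abs_add_le _ _).trans (add_le_add (abs_sub _ _) le_rfl)
      have h4 : |2 * w 1 ^ 3| ≤ 2 * CB ^ 3 := by
        rw [abs_mul, abs_pow, abs_two]
        have := pow_le_pow_left₀ (abs_nonneg _) hB 3
        linarith
      have h5 : |3 * w 0 * w 1 * w 2| ≤ 3 * CA * CB * CC := by
        rw [abs_mul, abs_mul, abs_mul]
        have h6 : |(3 : ℝ)| = 3 := abs_of_pos (by norm_num)
        rw [h6]
        gcongr
      linarith
    rw [hCD, le_div_iff₀ (by positivity)]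
    have h6 : |w 3| * η ^ 2 ≤ |w 3| * |w 0| ^ 2 :=
      mul_le_mul_of_nonneg_left (pow_le_pow_left₀ hη.le ha 2) (abs_nonneg _)
    linarith
  intro i
  fin_cases i
  · exact hA.trans (by linarith)
  · exact hB.trans (by linarith)
  · exact hC.trans (by linarith)
  · exact hD.trans (by linarith)

theorem ket (hcon : ConStmt) (hvol : VolStmt) (hrea : ReaStmt) : KetStmt := by
  intro k _ _ hk Φ T η hT hη
  obtain ⟨hcard, hD, hvF, hcF, hiv, hvv⟩ := hcon k hk Φ
  have hid := hrea.1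
  set n := finrank ℚ k with hn
  have hcF0 : 0 < Φ.cF := by linarith
  set c₁ : ℝ := η ^ (1 / n : ℝ) / Φ.cF with hc₁
  have hc₁0 : 0 < c₁ := div_pos (Real.rpow_pos_of_pos hη _) hcF0
  set G : Set (Sg k → ℝ) := closure (ZSpan.fundamentalDomain Φ.B) with hG
  set FT : Set (Sg k → ℝ) := Φ.F ∩ {x | ∏ s, x s ≤ T} with hFT
  set F1 : Set (Sg k → ℝ) := Φ.F ∩ {x | ∏ s, x s ≤ 1} with hF1
  obtain ⟨hT1, hT2, hT3, hT4⟩ := hvv T hT
  obtain ⟨h11, h12, h13, h14⟩ := hvv 1 one_pos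
  -- the set
  set C0 : Set (Sg k → Fin 4 → ℝ) := {w | (∀ s, η ≤ |w s 0|) ∧ ∀ s, c₁ ≤ qM (w s)} with hC0
  have hC0c : IsClosed C0 := by
    rw [hC0, Set.ofPred_and, Set.ofPred_forall, Set.ofPred_forall]
    refine IsClosed.inter (isClosed_iInter fun s => ?_) (isClosed_iInter fun s => ?_)
    · exact isClosed_le continuous_const (by fun_prop)
    · exact isClosed_le continuous_const (cont_qM s)
  set fb : (Sg k → Fin 4 → ℝ) → Sg k → ℝ := fun w s => w s 1 / w s 0 with hfb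
  set fx : (Sg k → Fin 4 → ℝ) → Sg k → ℝ := fun w s => qP (w s) / Real.sqrt (qM (w s)) with hfx
  set fm : (Sg k → Fin 4 → ℝ) → Sg k → ℝ := fun w s => qM (w s) with hfm
  have hfbc : ContinuousOn fb C0 := by
    refine continuousOn_pi.2 fun s => ?_
    refine ContinuousOn.div (by fun_prop) (by fun_prop) fun w hw => ?_
    have h1 : 0 < |w s 0| := lt_of_lt_of_le hη (hw.1 s)
    exact abs_pos.1 h1
  have hfxc : ContinuousOn fx C0 := by
    refine continuousOn_pi.2 fun s => ?_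
    refine ContinuousOn.div (cont_qP s).continuousOn
      (Real.continuous_sqrt.comp (cont_qM s)).continuousOn fun w hw => ?_
    exact (Real.sqrt_pos.2 (lt_of_lt_of_le hc₁0 (hw.2 s))).ne'
  have hfmc : Continuous fm := continuous_pi fun s => cont_qM s
  set K : Set (Sg k → Fin 4 → ℝ) :=
    (C0 ∩ fb ⁻¹' G) ∩ (C0 ∩ fx ⁻¹' closure FT) ∩ (fm ⁻¹' closure F1) ∩ {w | ∀ s, 0 ≤ qP (w s)}
    with hK
  have hKc : IsClosed K := by
    refine IsClosed.inter (IsClosed.inter (IsClosed.inter ?_ ?_) ?_) ?_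
    · exact hfbc.preimage_isClosed_of_isClosed hC0c isClosed_closure
    · exact hfxc.preimage_isClosed_of_isClosed hC0c isClosed_closure
    · exact isClosed_closure.preimage hfmc
    · rw [Set.ofPred_forall]
      exact isClosed_iInter fun s => isClosed_le continuous_const (cont_qP s)
  -- bounds
  have hGb : Bornology.IsBounded G := (ZSpan.fundamentalDomain_isBounded Φ.B).closure
  obtain ⟨Cb, hCb⟩ := hGb.exists_norm_le
  obtain ⟨Cx, hCx⟩ := hT4.closure.exists_norm_le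
  obtain ⟨Cm, hCm⟩ := h14.closure.exists_norm_le
  obtain ⟨C, hC0', hC⟩ := bd_one η c₁ (max Cx 0) (max Cm 0) (max Cb 0) hη hc₁0 (le_max_right _ _)
    (le_max_right _ _) hid
  have hKb : K ⊆ Set.pi Set.univ fun _ : Sg k => Set.pi Set.univ fun _ : Fin 4 =>
      Set.Icc (-C) C := by
    rintro w ⟨⟨⟨⟨hw1, hw2⟩, ⟨-, hw3⟩⟩, hw4⟩, hw5⟩
    intro s _ i _
    have h1 : ‖fb w‖ ≤ Cb := hCb _ hw2
    have h2 : ‖fx w‖ ≤ Cx := hCx _ hw3
    have h3 : ‖fm w‖ ≤ Cm := hCm _ hw4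
    have h := hC (w s) (hw1.1 s) (hw1.2 s) (hw5 s)
      (((norm_le_pi_norm (fb w) s).trans h1).trans (le_max_left _ _))
      (((le_abs_self _).trans ((norm_le_pi_norm (fx w) s).trans h2)).trans (le_max_left _ _))
      (((le_abs_self _).trans ((norm_le_pi_norm (fm w) s).trans h3)).trans (le_max_left _ _)) i
    exact abs_le.1 h
  have hKcomp : IsCompact K := by
    refine IsCompact.of_isClosed_subset ?_ hKc hKb
    exact isCompact_univ_pi fun _ => isCompact_univ_pi fun _ => isCompact_Icc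
  refine ⟨K, hKcomp, ?_, ?_⟩
  · -- the volume
    set A : Set (Sg k → ℝ) := closure FT ∩ {x | ∀ s, 0 < x s} with hA
    set M : Set (Sg k → ℝ) := closure F1 ∩ {x | ∀ s, 0 < x s} with hM
    have hpos : MeasurableSet {x : Sg k → ℝ | ∀ s, 0 < x s} := by
      rw [Set.ofPred_forall]
      exact MeasurableSet.iInter fun s => measurableSet_lt measurable_const (measurable_pi_apply s)
    have hv := hvol (Sg k) G A M isClosed_closure.measurableSet
      (isClosed_closure.measurableSet.inter hpos) (isClosed_closure.measurableSet.inter hpos)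
      (fun x hx => hx.2) (fun x hx => hx.2)
    have hsub : K ⊆ {w : Sg k → Fin 4 → ℝ | (∀ s, w s 0 ≠ 0) ∧ (∀ s, 0 < qP (w s)) ∧
        (∀ s, 0 < qM (w s)) ∧
        (fun s => w s 1 / w s 0) ∈ G ∧ (fun s => qP (w s) / Real.sqrt (qM (w s))) ∈ A ∧
        (fun s => qM (w s)) ∈ M} := by
      rintro w ⟨⟨⟨⟨hw1, hw2⟩, ⟨-, hw3⟩⟩, hw4⟩, hw5⟩
      have ha : ∀ s, w s 0 ≠ 0 := fun s => abs_pos.1 (lt_of_lt_of_le hη (hw1.1 s))
      have hm : ∀ s, 0 < qM (w s) := fun s => lt_of_lt_of_le hc₁0 (hw1.2 s)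
      have hp : ∀ s, 0 < qP (w s) := by
        intro s
        have h1 := hid (w s 0) (w s 1) (w s 2) (w s 3)
        have e1 : fM (w s 0) (w s 1) (w s 2) (w s 3) = qM (w s) := rfl
        have e2 : fP (w s 0) (w s 1) (w s 2) = qP (w s) := rfl
        rw [e1, e2] at h1
        rcases (hw5 s).lt_or_eq with h2 | h2
        · exact h2
        · exfalso
          rw [← h2] at h1
          have h4 : 0 < w s 0 ^ 2 := sq_pos_of_ne_zero (ha s)
          have h3 : 0 < w s 0 ^ 2 * qM (w s) := mul_pos h4 (hm s)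
          nlinarith [sq_nonneg (fX (w s 0) (w s 1) (w s 2) (w s 3))]
      refine ⟨ha, hp, hm, hw2, ⟨hw3, ?_⟩, ⟨hw4, hm⟩⟩
      intro s
      exact div_pos (hp s) (Real.sqrt_pos.2 (hm s))
    have hvG : volume G = volume (ZSpan.fundamentalDomain Φ.B) := by
      refine le_antisymm ?_ (measure_mono subset_closure)
      have h1 : volume (parallelepiped Φ.B) = volume (ZSpan.fundamentalDomain Φ.B) :=
        (measure_congr (ZSpan.fundamentalDomain_ae_parallelepiped Φ.B volume)).symm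
      rw [← h1]
      refine measure_mono ?_
      refine closure_minimal (ZSpan.fundamentalDomain_subset_parallelepiped Φ.B) ?_
      exact (Basis.parallelepiped Φ.B).isCompact.isClosed
    have hvGt : volume (ZSpan.fundamentalDomain Φ.B) ≠ ⊤ :=
      (ZSpan.fundamentalDomain_isBounded Φ.B).measure_lt_top.ne
    have hle : volume K ≤ ENNReal.ofReal (Real.pi ^ n) * volume (ZSpan.fundamentalDomain Φ.B) *
        volume FT * volume F1 := by
      refine (measure_mono hsub).trans ?_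
      rw [hv, hvG, hcard]
      have hvA : volume A ≤ volume FT := by
        rw [← hT3]
        exact measure_mono Set.inter_subset_left
      have hvM : volume M ≤ volume F1 := by
        rw [← h13]
        exact measure_mono Set.inter_subset_left
      exact mul_le_mul' (mul_le_mul' le_rfl hvA) hvM
    have hlt : ENNReal.ofReal (Real.pi ^ n) * volume (ZSpan.fundamentalDomain Φ.B) *
        volume FT * volume F1 ≠ ⊤ :=
      ENNReal.mul_ne_top (ENNReal.mul_ne_top (ENNReal.mul_ne_top ENNReal.ofReal_ne_top hvGt) hT2)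
        h12
    have h := ENNReal.toReal_mono hlt hle
    rw [ENNReal.toReal_mul, ENNReal.toReal_mul, ENNReal.toReal_mul,
      ENNReal.toReal_ofReal (by positivity), hT1, h11, mul_one] at h
    have e : (volume (ZSpan.fundamentalDomain Φ.B)).toReal = Φ.D := rfl
    rw [e, mul_comm Φ.vF T] at h
    exact h
  · -- membership
    intro w ha hP hm hb hx hxT hmF hηm hm1
    have hM1 : (fun s => qM (w s)) ∈ F1 := ⟨hmF, hm1⟩
    have hXT : (fun s => qP (w s) / Real.sqrt (qM (w s))) ∈ FT := ⟨hx, hxT⟩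
    have hc : ∀ s, c₁ ≤ qM (w s) := by
      intro s
      have h1 := (hiv _ hmF s).2
      rw [hc₁, div_le_iff₀ hcF0, mul_comm]
      exact (Real.rpow_le_rpow hη.le hηm (by positivity)).trans h1
    exact ⟨⟨⟨⟨⟨ha, hc⟩, subset_closure hb⟩, ⟨⟨ha, hc⟩, subset_closure hXT⟩⟩,
      subset_closure hM1⟩, fun s => (hP s).le⟩

end Pool.Agent.LeoK.H25
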